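import Pool.Agent.N51.PM.Mat

set_option autoImplicit false

namespace Pool.Agent.N51.PM

open Finset

variable {M ι : Type} [Fintype M] [DecidableEq M] [Fintype ι] [DecidableEq ι]

theorem ex_mx {r : ι → Finset M → ℕ} (h : ∀ i, RK (r i)) : ∃ B, Mx r B := by
  classical
  have hne : (univ.filter (fun B : ι → Finset M => Fam r B)).Nonempty := by
    refine ⟨fun _ => ∅, ?_⟩
    rw [Finset.mem_filter]
    exact ⟨Finset.mem_univ _, fun i => by simp [(h i).emp], fun i j _ => by simp⟩
  obtain ⟨B, hB, hm⟩ := Finset.exists_max_image _ (fun B => (cov B).card) hne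
  rw [Finset.mem_filter] at hB
  exact ⟨B, hB.2, fun B' hB' => hm B' (by rw [Finset.mem_filter]; exact ⟨Finset.mem_univ _, hB'⟩)⟩

theorem ex_min {r : ι → Finset M → ℕ} (h : ∀ i, RK (r i)) :
    ∃ B, Mx r B ∧ ∀ B', Mx r B' → ∑ l, (B l \ UU r).card ^ 2 ≤ ∑ l, (B' l \ UU r).card ^ 2 := by
  classical
  have hne : (univ.filter (fun B : ι → Finset M => Mx r B)).Nonempty := by
    obtain ⟨B, hB⟩ := ex_mx h
    exact ⟨B, by rw [Finset.mem_filter]; exact ⟨Finset.mem_univ _, hB⟩⟩
  obtain ⟨B, hB, hm⟩ := Finset.exists_min_image _ (fun B => ∑ l, (B l \ UU r).card ^ 2) hne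
  rw [Finset.mem_filter] at hB
  exact ⟨B, hB.2, fun B' hB' => hm B' (by rw [Finset.mem_filter]; exact ⟨Finset.mem_univ _, hB'⟩)⟩

/-- added items lie in `UU` -/
theorem ext_sub {r : ι → Finset M → ℕ} {B : ι → Finset M} (hB : Mx r B) {X : ι → Finset M}
    (hX : ∀ i j, i ≠ j → Disjoint (X i) (X j)) (hBX : ∀ i, B i ⊆ X i) (i : ι) {g : M}
    (hg : g ∈ X i) (hgB : g ∉ B i) : g ∈ UU r := by
  refine mem_UU.mpr ⟨B, hB, fun hc => ?_⟩
  obtain ⟨l, hl⟩ := mem_cov.mp hc
  by_cases hli : l = i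
  · subst hli; exact hgB hl
  · exact Finset.disjoint_left.mp (hX l i hli) (hBX l hl) hg

theorem val_ext {r : ι → Finset M → ℕ} (h : ∀ i, RK (r i)) {B : ι → Finset M} (hB : Mx r B)
    {X : ι → Finset M} (hX : ∀ i j, i ≠ j → Disjoint (X i) (X j)) (hBX : ∀ i, B i ⊆ X i) (i : ι) :
    r i (X i) = (B i).card := by
  have h1 := rk_span (h i) (B i) (X i) (by
    intro y hy
    by_cases hyB : y ∈ B i
    · rw [Finset.insert_eq_self.mpr hyB]
    · exact factS h hB (ext_sub hB hX hBX i hy hyB) i)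
  rw [Finset.union_eq_right.mpr (hBX i), hB.1.1 i] at h1
  exact h1

theorem sum_max {r : ι → Finset M → ℕ} (h : ∀ i, RK (r i)) {B : ι → Finset M} (hB : Mx r B)
    {Y : ι → Finset M} (hY : ∀ i j, i ≠ j → Disjoint (Y i) (Y j)) :
    ∑ i, r i (Y i) ≤ ∑ i, (B i).card := by
  have hc : ∀ i, ∃ I ⊆ Y i, r i I = I.card ∧ I.card = r i (Y i) := fun i =>
    ex_ind (h i) (Y i) _ le_rfl
  choose I hIY hI hIc using hc
  have hF : Fam r I := ⟨hI, fun i j hij => Finset.disjoint_of_subset_left (hIY i)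
    (Finset.disjoint_of_subset_right (hIY j) (hY i j hij))⟩
  have h1 := hB.2 I hF
  rw [card_cov hF, card_cov hB.1] at h1
  calc ∑ i, r i (Y i) = ∑ i, (I i).card := Finset.sum_congr rfl (fun i _ => (hIc i).symm)
    _ ≤ _ := h1

theorem pmms {r : ι → Finset M → ℕ} (h : ∀ i, RK (r i)) {B : ι → Finset M} (hB : Mx r B)
    (hmin : ∀ B', Mx r B' → ∑ l, (B l \ UU r).card ^ 2 ≤ ∑ l, (B' l \ UU r).card ^ 2)
    {X : ι → Finset M} (hX : ∀ i j, i ≠ j → Disjoint (X i) (X j)) (hBX : ∀ i, B i ⊆ X i)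
    {i j : ι} (hij : i ≠ j) {A A' : Finset M} (hd : Disjoint A A') (hA : A ∪ A' = X i ∪ X j)
    (h1 : (B i).card + 1 ≤ r i A) (h2 : (B i).card + 1 ≤ r i A') : False := by
  obtain ⟨I1, hI1A, hI1, hI1c⟩ := ex_ind (h i) A _ h1
  obtain ⟨I2, hI2A, hI2, hI2c⟩ := ex_ind (h i) A' _ h2
  have k1 := factR h hB i (I := I1 ∩ UU r) Finset.inter_subset_right
    (ind_sub (h i) hI1 Finset.inter_subset_left)
  have k2 := factR h hB i (I := I2 ∩ UU r) Finset.inter_subset_right
    (ind_sub (h i) hI2 Finset.inter_subset_left)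
  have c1 := Finset.card_inter_add_card_sdiff I1 (UU r)
  have c2 := Finset.card_inter_add_card_sdiff I2 (UU r)
  have cB := Finset.card_inter_add_card_sdiff (B i) (UU r)
  have hsub : ∀ a ∈ A ∪ A', a ∉ UU r → a ∈ B i \ UU r ∨ a ∈ B j \ UU r := by
    intro a ha haU
    rw [hA, Finset.mem_union] at ha
    rcases ha with ha | ha
    · left
      rw [Finset.mem_sdiff]
      refine ⟨?_, haU⟩
      by_contra hh
      exact haU (ext_sub hB hX hBX i ha hh)
    · right
      rw [Finset.mem_sdiff]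
      refine ⟨?_, haU⟩
      by_contra hh
      exact haU (ext_sub hB hX hBX j ha hh)
  have c3 : (I1 \ UU r).card + (I2 \ UU r).card ≤ (B i \ UU r).card + (B j \ UU r).card := by
    rw [← Finset.card_union_of_disjoint (Finset.disjoint_of_subset_left
      (Finset.sdiff_subset.trans hI1A) (Finset.disjoint_of_subset_right
      (Finset.sdiff_subset.trans hI2A) hd))]
    refine le_trans (Finset.card_le_card ?_) (Finset.card_union_le _ _)
    intro a ha
    rw [Finset.mem_union] at ha ⊢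
    rcases ha with ha | ha
    · rw [Finset.mem_sdiff] at ha
      exact hsub a (Finset.mem_union_left _ (hI1A ha.1)) ha.2
    · rw [Finset.mem_sdiff] at ha
      exact hsub a (Finset.mem_union_right _ (hI2A ha.1)) ha.2
  have hgap : (B i \ UU r).card + 2 ≤ (B j \ UU r).card := by omega
  obtain ⟨g, hgA, hgB, hgr⟩ := rk_aug (h i) (I := B i) (S := A) (by rw [hB.1.1 i]; omega)
  have hgU : g ∉ UU r := by
    intro hh
    have := factS h hB hh i
    omega
  have hgj : g ∈ B j := by
    rcases hsub g (Finset.mem_union_left _ hgA) hgU with hh | hh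
    · exact absurd (Finset.mem_sdiff.mp hh).1 hgB
    · exact (Finset.mem_sdiff.mp hh).1
  have hF := fam_mv h hB.1 hgB hgr
  have hcov : cov (mv B i g) = cov B := by
    rw [cov_mv, Finset.insert_eq_self.mpr (mem_cov.mpr ⟨j, hgj⟩)]
  have hM : Mx r (mv B i g) := ⟨hF, fun B' hB' => by rw [hcov]; exact hB.2 B' hB'⟩
  have hle := hmin _ hM
  have hji : j ∈ (univ : Finset ι).erase i := Finset.mem_erase.mpr ⟨fun e => hij e.symm, Finset.mem_univ j⟩
  rw [← Finset.add_sum_erase univ (fun l => (B l \ UU r).card ^ 2) (Finset.mem_univ i),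
    ← Finset.add_sum_erase univ (fun l => (mv B i g l \ UU r).card ^ 2) (Finset.mem_univ i),
    ← Finset.add_sum_erase (univ.erase i) (fun l => (B l \ UU r).card ^ 2) hji,
    ← Finset.add_sum_erase (univ.erase i) (fun l => (mv B i g l \ UU r).card ^ 2) hji] at hle
  have e1 : (mv B i g i \ UU r).card = (B i \ UU r).card + 1 := by
    have : mv B i g i \ UU r = insert g (B i \ UU r) := by
      ext a
      simp only [mv, if_true, Finset.mem_sdiff, Finset.mem_insert]
      constructor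
      · rintro ⟨h1 | h1, h2⟩
        · exact Or.inl h1
        · exact Or.inr ⟨h1, h2⟩
      · rintro (h1 | ⟨h1, h2⟩)
        · exact ⟨Or.inl h1, h1 ▸ hgU⟩
        · exact ⟨Or.inr h1, h2⟩
    rw [this, Finset.card_insert_of_notMem]
    rw [Finset.mem_sdiff]
    exact fun hh => hgB hh.1
  have e2 : (mv B i g j \ UU r).card + 1 = (B j \ UU r).card := by
    have : mv B i g j \ UU r = (B j \ UU r).erase g := by
      ext a
      simp only [mv, if_neg (fun e => hij (e : j = i).symm), Finset.mem_sdiff, Finset.mem_erase]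
      tauto
    rw [this]
    exact Finset.card_erase_add_one (Finset.mem_sdiff.mpr ⟨hgj, hgU⟩)
  have e3 : ∑ l ∈ (univ.erase i).erase j, (mv B i g l \ UU r).card ^ 2
      ≤ ∑ l ∈ (univ.erase i).erase j, (B l \ UU r).card ^ 2 := by
    apply Finset.sum_le_sum
    intro l hl
    have hli : l ≠ i := (Finset.mem_erase.mp (Finset.mem_erase.mp hl).2).1
    apply Nat.pow_le_pow_left
    apply Finset.card_le_card
    intro a ha
    simp only [mv, if_neg hli, Finset.mem_sdiff, Finset.mem_erase] at ha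
    rw [Finset.mem_sdiff]
    exact ⟨ha.1.2, ha.2⟩
  have e4 : ∃ d, (B j \ UU r).card = d + 1 := ⟨(mv B i g j \ UU r).card, e2.symm⟩
  obtain ⟨d, hdd⟩ := e4
  have e5 : (mv B i g j \ UU r).card = d := by omega
  rw [e1, e5, hdd] at hle
  rw [hdd] at hgap
  nlinarith

/-- complete extensions exist -/
theorem ex_complete [Nonempty ι] {B : ι → Finset M} (hB : ∀ i j, i ≠ j → Disjoint (B i) (B j)) :
    ∃ X : ι → Finset M, (∀ i j, i ≠ j → Disjoint (X i) (X j)) ∧ (∀ g, ∃ i, g ∈ X i) ∧
      ∀ i, B i ⊆ X i := by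
  obtain ⟨t⟩ := (inferInstance : Nonempty ι)
  refine ⟨fun k => if k = t then B k ∪ (univ \ cov B) else B k, ?_, ?_, ?_⟩
  · intro i j hij
    rw [Finset.disjoint_left]
    intro a ha hb
    have hd := Finset.disjoint_left.mp (hB i j hij)
    dsimp only at ha hb
    split_ifs at ha hb with h1 h2 h2
    · exact hij (h1.trans h2.symm)
    · rw [Finset.mem_union, Finset.mem_sdiff] at ha
      rcases ha with ha | ha
      · exact hd ha hb
      · exact ha.2 (mem_cov.mpr ⟨j, hb⟩)
    · rw [Finset.mem_union, Finset.mem_sdiff] at hb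
      rcases hb with hb | hb
      · exact hd ha hb
      · exact hb.2 (mem_cov.mpr ⟨i, ha⟩)
    · exact hd ha hb
  · intro g
    by_cases hg : g ∈ cov B
    · obtain ⟨l, hl⟩ := mem_cov.mp hg
      refine ⟨l, ?_⟩
      dsimp only
      split_ifs
      · exact Finset.mem_union_left _ hl
      · exact hl
    · refine ⟨t, ?_⟩
      simp [hg]
  · intro i
    dsimp only
    split_ifs
    · exact Finset.subset_union_left
    · exact Finset.Subset.refl _

end Pool.Agent.N51.PM
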