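import Mathlib

set_option autoImplicit false

namespace Pool.Agent.N51.PM

open Finset

variable {M ι : Type} [Fintype M] [DecidableEq M] [Fintype ι] [DecidableEq ι]

/-- rank functions of matroids on finite sets -/
structure RK (r : Finset M → ℕ) : Prop where
  emp : r ∅ = 0
  mono : ∀ S g, r S ≤ r (insert g S)
  step : ∀ S g, r (insert g S) ≤ r S + 1
  sub : ∀ S T, r (S ∪ T) + r (S ∩ T) ≤ r S + r T

omit [Fintype M] in
theorem rk_mono {r : Finset M → ℕ} (h : RK r) (S : Finset M) :
    ∀ D : Finset M, r S ≤ r (S ∪ D) := by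
  intro D
  induction D using Finset.induction_on with
  | empty => simp
  | insert a D _ ih =>
    rw [Finset.union_insert]
    exact ih.trans (h.mono _ _)

omit [Fintype M] in
theorem rk_mono' {r : Finset M → ℕ} (h : RK r) {S T : Finset M} (hST : S ⊆ T) : r S ≤ r T := by
  have := rk_mono h S T
  rwa [Finset.union_eq_right.mpr hST] at this

omit [Fintype M] in
theorem rk_up {r : Finset M → ℕ} (h : RK r) (S : Finset M) :
    ∀ D : Finset M, r (S ∪ D) ≤ r S + D.card := by
  intro D
  induction D using Finset.induction_on with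
  | empty => simp
  | insert a D ha ih =>
    rw [Finset.union_insert, Finset.card_insert_of_notMem ha]
    have := h.step (S ∪ D) a
    omega

omit [Fintype M] in
theorem rk_le_card {r : Finset M → ℕ} (h : RK r) (S : Finset M) : r S ≤ S.card := by
  have := rk_up h ∅ S
  rw [Finset.empty_union, h.emp] at this
  omega

omit [Fintype M] in
theorem ind_sub {r : Finset M → ℕ} (h : RK r) {I J : Finset M} (hI : r I = I.card) (hJ : J ⊆ I) :
    r J = J.card := by
  have h1 := rk_up h J (I \ J)
  rw [Finset.union_sdiff_of_subset hJ, hI] at h1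
  have h2 := Finset.card_sdiff_add_card_eq_card hJ
  have h3 := rk_le_card h J
  omega

omit [Fintype M] in
theorem rk_span {r : Finset M → ℕ} (h : RK r) (S : Finset M) :
    ∀ T : Finset M, (∀ y ∈ T, r (insert y S) = r S) → r (S ∪ T) = r S := by
  intro T
  induction T using Finset.induction_on with
  | empty => intro _; simp
  | insert a T ha ih =>
    intro hT
    have h1 : r (S ∪ T) = r S := ih (fun y hy => hT y (Finset.mem_insert_of_mem hy))
    have h2 : r (insert a S) = r S := hT a (Finset.mem_insert_self _ _)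
    have h3 := h.sub (S ∪ T) (insert a S)
    have h4 : (S ∪ T) ∪ insert a S = S ∪ insert a T := by
      ext x; simp only [Finset.mem_union, Finset.mem_insert]; tauto
    have h5 : r S ≤ r ((S ∪ T) ∩ insert a S) := by
      apply rk_mono' h
      intro x hx
      simp only [Finset.mem_inter, Finset.mem_union, Finset.mem_insert]
      tauto
    have h6 : r S ≤ r (S ∪ insert a T) := rk_mono h _ _
    rw [h4] at h3
    omega

omit [Fintype M] in
theorem rk_aug {r : Finset M → ℕ} (h : RK r) {I S : Finset M} (hlt : r I < r S) :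
    ∃ y ∈ S, y ∉ I ∧ r (insert y I) = r I + 1 := by
  by_contra hcon
  push Not at hcon
  have h1 : ∀ y ∈ S, r (insert y I) = r I := by
    intro y hy
    by_cases hyI : y ∈ I
    · rw [Finset.insert_eq_self.mpr hyI]
    · have h2 := hcon y hy hyI
      have h3 := h.mono I y
      have h4 := h.step I y
      omega
  have h2 := rk_span h I S h1
  have h3 : r S ≤ r (I ∪ S) := rk_mono' h Finset.subset_union_right
  omega

omit [Fintype M] in
theorem ex_ind {r : Finset M → ℕ} (h : RK r) (S : Finset M) :
    ∀ k : ℕ, k ≤ r S → ∃ I ⊆ S, r I = I.card ∧ I.card = k := by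
  intro k
  induction k with
  | zero => intro _; exact ⟨∅, Finset.empty_subset _, by simp [h.emp], by simp⟩
  | succ k ih =>
    intro hk
    obtain ⟨I, hIS, hI, hIk⟩ := ih (by omega)
    obtain ⟨y, hyS, hyI, hy⟩ := rk_aug h (I := I) (S := S) (by omega)
    refine ⟨insert y I, Finset.insert_subset hyS hIS, ?_, ?_⟩
    · rw [hy, Finset.card_insert_of_notMem hyI, hI]
    · rw [Finset.card_insert_of_notMem hyI, hIk]

/-- families of disjoint independent sets -/
def Fam (r : ι → Finset M → ℕ) (B : ι → Finset M) : Prop :=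
  (∀ i, r i (B i) = (B i).card) ∧ ∀ i j, i ≠ j → Disjoint (B i) (B j)

/-- the covered items -/
def cov (B : ι → Finset M) : Finset M := univ.biUnion B

omit [Fintype M] [DecidableEq ι] in
theorem mem_cov {B : ι → Finset M} {g : M} : g ∈ cov B ↔ ∃ l, g ∈ B l := by
  simp [cov]

omit [Fintype M] in
theorem card_cov {r : ι → Finset M → ℕ} {B : ι → Finset M} (hB : Fam r B) :
    (cov B).card = ∑ l, (B l).card := by
  apply Finset.card_biUnion
  intro i _ j _ hij
  exact hB.2 i j hij

/-- put `y` into bundle `l`, out of all others -/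
def mv (Q : ι → Finset M) (l : ι) (y : M) : ι → Finset M :=
  fun k => if k = l then insert y (Q k) else (Q k).erase y

omit [Fintype M] in
theorem cov_mv (Q : ι → Finset M) (l : ι) (y : M) : cov (mv Q l y) = insert y (cov Q) := by
  ext g
  rw [Finset.mem_insert, mem_cov, mem_cov]
  constructor
  · rintro ⟨k, hk⟩
    unfold mv at hk
    split_ifs at hk with h
    · rw [Finset.mem_insert] at hk
      rcases hk with hk | hk
      · exact Or.inl hk
      · exact Or.inr ⟨k, hk⟩
    · exact Or.inr ⟨k, Finset.mem_of_mem_erase hk⟩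
  · rintro (rfl | ⟨k, hk⟩)
    · exact ⟨l, by simp [mv]⟩
    · by_cases hg : g = y
      · exact ⟨l, by simp [mv, hg]⟩
      · refine ⟨k, ?_⟩
        unfold mv
        split_ifs
        · exact Finset.mem_insert_of_mem hk
        · exact Finset.mem_erase.mpr ⟨hg, hk⟩

omit [Fintype M] [Fintype ι] in
theorem fam_mv {r : ι → Finset M → ℕ} (h : ∀ i, RK (r i)) {Q : ι → Finset M} (hQ : Fam r Q)
    {l : ι} {y : M} (hy : y ∉ Q l) (hr : r l (insert y (Q l)) = r l (Q l) + 1) :
    Fam r (mv Q l y) := by
  refine ⟨?_, ?_⟩
  · intro k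
    unfold mv
    split_ifs with hk
    · subst hk
      rw [hr, Finset.card_insert_of_notMem hy, hQ.1]
    · exact ind_sub (h k) (hQ.1 k) (Finset.erase_subset _ _)
  · intro i j hij
    rw [Finset.disjoint_left]
    intro a ha hb
    unfold mv at ha hb
    have hd := Finset.disjoint_left.mp (hQ.2 i j hij)
    split_ifs at ha hb with h1 h2 h2
    · exact hij (h1.trans h2.symm)
    · rw [Finset.mem_erase] at hb
      rw [Finset.mem_insert] at ha
      rcases ha with ha | ha
      · exact hb.1 ha
      · exact hd ha hb.2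
    · rw [Finset.mem_erase] at ha
      rw [Finset.mem_insert] at hb
      rcases hb with hb | hb
      · exact ha.1 hb
      · exact hd ha.2 hb
    · rw [Finset.mem_erase] at ha hb
      exact hd ha.2 hb.2

omit [Fintype M] in
/-- augmentation for unions of matroids, with one doubly covered item `x` -/
theorem union_aug {r : ι → Finset M → ℕ} (h : ∀ i, RK (r i)) (P : ι → Finset M) (x : M)
    (hP : ∀ i, r i (P i) = (P i).card) (hPx : ∀ i j, i ≠ j → ∀ a, a ∈ P i → a ∈ P j → a = x) :
    ∀ (n : ℕ) (Q : ι → Finset M), ∑ l, (P l \ Q l).card ≤ n → Fam r Q → x ∉ cov Q →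
      (cov Q).card < ∑ l, (P l).card →
      ∃ z, z ∈ cov P ∧ z ∉ cov Q ∧ ∃ Q', Fam r Q' ∧ cov Q' = insert z (cov Q) := by
  intro n
  induction n with
  | zero =>
    intro Q hn hQ hx hc
    exfalso
    rw [card_cov hQ] at hc
    obtain ⟨l, _, hl⟩ := Finset.exists_lt_of_sum_lt hc
    have h1 : (P l \ Q l).card ≤ ∑ l, (P l \ Q l).card :=
      Finset.single_le_sum (f := fun l => (P l \ Q l).card) (fun _ _ => Nat.zero_le _) (Finset.mem_univ l)
    have h2 : (P l \ Q l).card = 0 := by omega
    rw [Finset.card_eq_zero, Finset.sdiff_eq_empty_iff_subset] at h2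
    have := Finset.card_le_card h2
    omega
  | succ n ih =>
    intro Q hn hQ hx hc
    have hc' := hc
    rw [card_cov hQ] at hc'
    obtain ⟨l, _, hl⟩ := Finset.exists_lt_of_sum_lt hc'
    obtain ⟨y, hyP, hyQ, hyr⟩ := rk_aug (h l) (I := Q l) (S := P l) (by rw [hP, hQ.1]; exact hl)
    have hF := fam_mv h hQ hyQ hyr
    by_cases hy : y ∈ cov Q
    · have hyx : y ≠ x := fun e => hx (e ▸ hy)
      have hcov : cov (mv Q l y) = cov Q := by rw [cov_mv, Finset.insert_eq_self.mpr hy]
      obtain ⟨z, hz1, hz2, Q', hQ', hQc⟩ := ih (mv Q l y) (by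
        have hlt : ∑ k, (P k \ mv Q l y k).card < ∑ k, (P k \ Q k).card := by
          apply Finset.sum_lt_sum
          · intro k _
            apply Finset.card_le_card
            intro a ha
            rw [Finset.mem_sdiff] at ha ⊢
            refine ⟨ha.1, fun haQ => ha.2 ?_⟩
            unfold mv
            split_ifs with hk
            · exact Finset.mem_insert_of_mem haQ
            · refine Finset.mem_erase.mpr ⟨?_, haQ⟩
              rintro rfl
              exact hyx (hPx l k (fun e => hk e.symm) a hyP ha.1)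
          · refine ⟨l, Finset.mem_univ l, ?_⟩
            apply Finset.card_lt_card
            refine ⟨?_, ?_⟩
            · intro a ha
              rw [Finset.mem_sdiff] at ha ⊢
              refine ⟨ha.1, fun haQ => ha.2 ?_⟩
              simp [mv, haQ]
            · intro hsub
              have := hsub (Finset.mem_sdiff.mpr ⟨hyP, hyQ⟩)
              rw [Finset.mem_sdiff] at this
              exact this.2 (by simp [mv])
        omega) hF (by rw [hcov]; exact hx) (by rw [hcov]; exact hc)
      rw [hcov] at hz2 hQc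
      exact ⟨z, hz1, hz2, Q', hQ', hQc⟩
    · exact ⟨y, mem_cov.mpr ⟨l, hyP⟩, hy, mv Q l y, hF, cov_mv Q l y⟩

/-- maximum families -/
def Mx (r : ι → Finset M → ℕ) (B : ι → Finset M) : Prop :=
  Fam r B ∧ ∀ B', Fam r B' → (cov B').card ≤ (cov B).card

open Classical in
/-- items left out by some maximum family -/
noncomputable def UU (r : ι → Finset M → ℕ) : Finset M :=
  univ.filter (fun x => ∃ B, Mx r B ∧ x ∉ cov B)

theorem mem_UU {r : ι → Finset M → ℕ} {x : M} : x ∈ UU r ↔ ∃ B, Mx r B ∧ x ∉ cov B := by
  simp [UU]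

theorem factS {r : ι → Finset M → ℕ} (h : ∀ i, RK (r i)) {B : ι → Finset M} (hB : Mx r B)
    {x : M} (hx : x ∈ UU r) (i : ι) : r i (insert x (B i)) = r i (B i) := by
  by_contra hne
  have h1 := (h i).mono (B i) x
  have h2 := (h i).step (B i) x
  have h3 : r i (insert x (B i)) = (B i).card + 1 := by rw [← hB.1.1 i]; omega
  have hxB : x ∉ B i := by
    intro hx'
    exact hne (by rw [Finset.insert_eq_self.mpr hx'])
  obtain ⟨B', hB', hxB'⟩ := mem_UU.mp hx
  have hcc : (cov B').card = (cov B).card := le_antisymm (hB.2 _ hB'.1) (hB'.2 _ hB.1)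
  set P : ι → Finset M := fun k => if k = i then insert x (B k) else B k with hPdef
  have hPc : ∑ l, (P l).card = (cov B).card + 1 := by
    rw [card_cov hB.1, ← Finset.add_sum_erase univ (fun l => (P l).card) (Finset.mem_univ i),
      ← Finset.add_sum_erase univ (fun l => (B l).card) (Finset.mem_univ i)]
    have e1 : (P i).card = (B i).card + 1 := by
      simp [hPdef, Finset.card_insert_of_notMem hxB]
    have e2 : ∑ l ∈ univ.erase i, (P l).card = ∑ l ∈ univ.erase i, (B l).card := by
      apply Finset.sum_congr rfl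
      intro l hl
      have : l ≠ i := Finset.ne_of_mem_erase hl
      simp [hPdef, this]
    rw [e1, e2]; ring
  obtain ⟨z, _, hz2, Q', hQ', hQc⟩ := union_aug h P x (by
      intro k
      by_cases hk : k = i
      · subst hk
        simp only [hPdef, if_true]
        rw [h3, Finset.card_insert_of_notMem hxB]
      · simp only [hPdef, if_neg hk]
        exact hB.1.1 k) (by
      intro a b hab g hga hgb
      have hd := Finset.disjoint_left.mp (hB.1.2 a b hab)
      simp only [hPdef] at hga hgb
      split_ifs at hga hgb with c1 c2 c2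
      · exact absurd (c1.trans c2.symm) hab
      · rcases Finset.mem_insert.mp hga with e | e
        · exact e
        · exact absurd hgb (hd e)
      · rcases Finset.mem_insert.mp hgb with e | e
        · exact e
        · exact absurd e (hd hga)
      · exact absurd hgb (hd hga)) _ B' le_rfl hB'.1 hxB' (by rw [hPc, hcc]; omega)
  have h5 := hB'.2 Q' hQ'
  rw [hQc, Finset.card_insert_of_notMem hz2] at h5
  omega

theorem factE {r : ι → Finset M → ℕ} (h : ∀ i, RK (r i)) {B : ι → Finset M} (hB : Mx r B)
    {x y : M} (hx : x ∈ UU r) (i : ι) (hy : y ∈ B i) (hxB : x ∉ B i)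
    (hr : r i (insert x ((B i).erase y)) = (B i).card) : y ∈ UU r := by
  obtain ⟨B', hB', hxB'⟩ := mem_UU.mp hx
  have hcc : (cov B').card = (cov B).card := le_antisymm (hB.2 _ hB'.1) (hB'.2 _ hB.1)
  by_cases hyB' : y ∈ cov B'
  swap
  · exact mem_UU.mpr ⟨B', hB', hyB'⟩
  have hxy : y ≠ x := fun e => hxB (e ▸ hy)
  set P : ι → Finset M := fun k => if k = i then insert x ((B k).erase y) else B k with hPdef
  have hxe : x ∉ (B i).erase y := fun hh => hxB (Finset.mem_of_mem_erase hh)
  have hPi : (P i).card = (B i).card := by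
    simp only [hPdef, if_true]
    rw [Finset.card_insert_of_notMem hxe, Finset.card_erase_add_one hy]
  have hPc : ∑ l, (P l).card = (cov B).card := by
    rw [card_cov hB.1, ← Finset.add_sum_erase univ (fun l => (P l).card) (Finset.mem_univ i),
      ← Finset.add_sum_erase univ (fun l => (B l).card) (Finset.mem_univ i)]
    have e2 : ∑ l ∈ univ.erase i, (P l).card = ∑ l ∈ univ.erase i, (B l).card := by
      apply Finset.sum_congr rfl
      intro l hl
      have : l ≠ i := Finset.ne_of_mem_erase hl
      simp [hPdef, this]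
    rw [hPi, e2]
  set Q : ι → Finset M := fun k => (B' k).erase y with hQdef
  have hQF : Fam r Q := by
    refine ⟨fun k => ind_sub (h k) (hB'.1.1 k) (Finset.erase_subset _ _), fun a b hab => ?_⟩
    exact Finset.disjoint_of_subset_left (Finset.erase_subset _ _)
      (Finset.disjoint_of_subset_right (Finset.erase_subset _ _) (hB'.1.2 a b hab))
  have hQc : cov Q = (cov B').erase y := by
    ext g
    rw [mem_cov, Finset.mem_erase, mem_cov]
    simp only [hQdef, Finset.mem_erase]
    constructor
    · rintro ⟨l, h1, h2⟩; exact ⟨h1, l, h2⟩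
    · rintro ⟨h1, l, h2⟩; exact ⟨l, h1, h2⟩
  have hQcard : (cov Q).card + 1 = (cov B').card := by
    rw [hQc]; exact Finset.card_erase_add_one hyB'
  obtain ⟨z, hz1, hz2, Q', hQ', hQ'c⟩ := union_aug h P x (by
      intro k
      by_cases hk : k = i
      · subst hk
        rw [hPi]
        simp only [hPdef, if_true]
        exact hr
      · simp only [hPdef, if_neg hk]
        exact hB.1.1 k) (by
      intro a b hab g hga hgb
      have hd := Finset.disjoint_left.mp (hB.1.2 a b hab)
      simp only [hPdef] at hga hgb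
      split_ifs at hga hgb with c1 c2 c2
      · exact absurd (c1.trans c2.symm) hab
      · rcases Finset.mem_insert.mp hga with e | e
        · exact e
        · exact absurd hgb (hd (Finset.mem_of_mem_erase e))
      · rcases Finset.mem_insert.mp hgb with e | e
        · exact e
        · exact absurd (Finset.mem_of_mem_erase e) (hd hga)
      · exact absurd hgb (hd hga)) _ Q le_rfl hQF (by
        rw [hQc]; exact fun hh => hxB' (Finset.mem_of_mem_erase hh)) (by rw [hPc]; omega)
  have hzc : (cov Q').card = (cov B').card := by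
    rw [hQ'c, Finset.card_insert_of_notMem hz2, hQcard]
  refine mem_UU.mpr ⟨Q', ⟨hQ', fun B'' hB'' => by rw [hzc]; exact hB'.2 B'' hB''⟩, ?_⟩
  rw [hQ'c, Finset.mem_insert, hQc, Finset.mem_erase]
  rintro (e | e)
  · rw [← e] at hz1
    obtain ⟨l, hl⟩ := mem_cov.mp hz1
    simp only [hPdef] at hl
    split_ifs at hl with c
    · rcases Finset.mem_insert.mp hl with e | e
      · exact hxy e
      · exact (Finset.notMem_erase y _) e
    · exact Finset.disjoint_left.mp (hB.1.2 i l (fun e => c e.symm)) hy hl
  · exact e.1 rfl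

theorem factR {r : ι → Finset M → ℕ} (h : ∀ i, RK (r i)) {B : ι → Finset M} (hB : Mx r B)
    (i : ι) {I : Finset M} (hIU : I ⊆ UU r) (hI : r i I = I.card) :
    I.card ≤ (B i ∩ UU r).card := by
  by_contra hlt
  push Not at hlt
  have hBU : r i (B i ∩ UU r) = (B i ∩ UU r).card :=
    ind_sub (h i) (hB.1.1 i) Finset.inter_subset_left
  obtain ⟨x, hxI, hxn, hxr⟩ := rk_aug (h i) (I := B i ∩ UU r) (S := I) (by rw [hBU, hI]; exact hlt)
  have hxU : x ∈ UU r := hIU hxI
  have hxB : x ∉ B i := fun hh => hxn (Finset.mem_inter.mpr ⟨hh, hxU⟩)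
  have hS := factS h hB hxU i
  -- a largest independent set between
  let C : Finset (Finset M) := (insert x (B i)).powerset.filter
    (fun Q => insert x (B i ∩ UU r) ⊆ Q ∧ r i Q = Q.card)
  have hCne : C.Nonempty := by
    refine ⟨insert x (B i ∩ UU r), ?_⟩
    rw [Finset.mem_filter, Finset.mem_powerset]
    refine ⟨Finset.insert_subset_insert _ Finset.inter_subset_left, Finset.Subset.refl _, ?_⟩
    rw [hxr, Finset.card_insert_of_notMem hxn, hBU]
  obtain ⟨Q, hQC, hQmax⟩ := Finset.exists_max_image C (fun Q => Q.card) hCne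
  rw [Finset.mem_filter, Finset.mem_powerset] at hQC
  obtain ⟨hQsub, hJQ, hQind⟩ := hQC
  have hge : (B i).card ≤ Q.card := by
    by_contra hh
    push Not at hh
    obtain ⟨z, hzB, hzQ, hzr⟩ := rk_aug (h i) (I := Q) (S := B i) (by
      rw [hQind, hB.1.1 i]; exact hh)
    have := hQmax (insert z Q) (by
      rw [Finset.mem_filter, Finset.mem_powerset]
      refine ⟨Finset.insert_subset (Finset.mem_insert_of_mem hzB) hQsub,
        hJQ.trans (Finset.subset_insert _ _), ?_⟩
      rw [hzr, Finset.card_insert_of_notMem hzQ, hQind])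
    simp only [Finset.card_insert_of_notMem hzQ] at this
    omega
  have hle : Q.card ≤ (B i).card := by
    have h1 : r i Q ≤ r i (insert x (B i)) := rk_mono' (h i) hQsub
    rw [hS, hQind, hB.1.1 i] at h1
    exact h1
  have hcard : (insert x (B i)).card = (B i).card + 1 := Finset.card_insert_of_notMem hxB
  have hne : ¬ insert x (B i) ⊆ Q := by
    intro hh
    have := Finset.card_le_card hh
    omega
  obtain ⟨y, hy1, hy2⟩ := Finset.not_subset.mp hne
  have hyx : y ≠ x := by
    rintro rfl
    exact hy2 (hJQ (Finset.mem_insert_self _ _))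
  have hyB : y ∈ B i := Finset.mem_of_mem_insert_of_ne hy1 hyx
  have hyU : y ∉ UU r := by
    intro hh
    exact hy2 (hJQ (Finset.mem_insert_of_mem (Finset.mem_inter.mpr ⟨hyB, hh⟩)))
  have hQe : Q = insert x ((B i).erase y) := by
    apply Finset.eq_of_subset_of_card_le
    · intro a ha
      have h1 := hQsub ha
      rw [Finset.mem_insert] at h1 ⊢
      rcases h1 with h1 | h1
      · exact Or.inl h1
      · right
        rw [Finset.mem_erase]
        exact ⟨fun e => hy2 (e ▸ ha), h1⟩
    · have : x ∉ (B i).erase y := fun hh => hxB (Finset.mem_of_mem_erase hh)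
      rw [Finset.card_insert_of_notMem this, Finset.card_erase_add_one hyB]
      exact hge
  apply hyU
  apply factE h hB hxU i hyB hxB
  rw [← hQe, hQind]
  omega

end Pool.Agent.N51.PM
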